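import Pool.Agent.W712.RP.Stm

/-!
RP-L2: uniform outer balls on a patch of the boundary (Baire).
-/

set_option autoImplicit false

open MeasureTheory Set Filter Topology

namespace Pool.Agent.W743.RP

open Pool.Agent.W712.RP

/-- The frontier of a body in positive dimension is nonempty. -/
theorem frontier_ne {k : ℕ} (hk : 1 ≤ k) (K : Set (EuclideanSpace ℝ (Fin k))) (hK : Body K) :
    (frontier K).Nonempty := by
  have hne : K.Nonempty := hK.interior_nonempty.mono interior_subset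
  have : Nonempty (Fin k) := ⟨⟨0, hk⟩⟩
  have hnu : K ≠ univ := by
    intro h
    have hb := hK.compact.isBounded
    rw [h] at hb
    exact NormedSpace.unbounded_univ ℝ (EuclideanSpace ℝ (Fin k)) hb
  by_contra hf
  rw [not_nonempty_iff_eq_empty, ← isClopen_iff_frontier_eq_empty, isClopen_iff] at hf
  rcases hf with h | h
  · exact hne.ne_empty h
  · exact hnu h

/-- The sets of the Baire argument. -/
def AN {k : ℕ} (K : Set (EuclideanSpace ℝ (Fin k))) (N : ℝ) : Set (EuclideanSpace ℝ (Fin k)) :=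
  {p | ∃ ν : EuclideanSpace ℝ (Fin k), ‖ν‖ = 1 ∧
    ∀ y ∈ K, ‖y - p‖ ^ 2 ≤ 2 * N * inner ℝ (p - y) ν}

theorem isClosed_AN {k : ℕ} (K : Set (EuclideanSpace ℝ (Fin k))) (N : ℝ) :
    IsClosed (AN K N) := by
  have h2 : IsClosed {q : EuclideanSpace ℝ (Fin k) × EuclideanSpace ℝ (Fin k) |
      ∀ y ∈ K, ‖y - q.1‖ ^ 2 ≤ 2 * N * inner ℝ (q.1 - y) q.2} := by
    have : {q : EuclideanSpace ℝ (Fin k) × EuclideanSpace ℝ (Fin k) |
      ∀ y ∈ K, ‖y - q.1‖ ^ 2 ≤ 2 * N * inner ℝ (q.1 - y) q.2} =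
        ⋂ y ∈ K, {q | ‖y - q.1‖ ^ 2 ≤ 2 * N * inner ℝ (q.1 - y) q.2} := by
      ext q; simp
    rw [this]
    refine isClosed_biInter fun y _ => isClosed_le ?_ ?_
    · fun_prop
    · exact continuous_const.mul (Continuous.inner (by fun_prop) (by fun_prop))
  have hc : IsCompact (Metric.sphere (0 : EuclideanSpace ℝ (Fin k)) 1) := isCompact_sphere _ _
  have hce : CompactSpace (Metric.sphere (0 : EuclideanSpace ℝ (Fin k)) 1) :=
    isCompact_iff_compactSpace.mp hc
  have h3 : AN K N = Prod.fst '' {q : EuclideanSpace ℝ (Fin k) ×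
      Metric.sphere (0 : EuclideanSpace ℝ (Fin k)) 1 |
      ∀ y ∈ K, ‖y - q.1‖ ^ 2 ≤ 2 * N * inner ℝ (q.1 - y) q.2.1} := by
    ext p
    constructor
    · rintro ⟨ν, hν, h⟩
      exact ⟨(p, ⟨ν, by simpa using hν⟩), h, rfl⟩
    · rintro ⟨⟨p', ν⟩, h, rfl⟩
      exact ⟨ν.1, by simpa using ν.2, h⟩
  rw [h3]
  refine isClosedMap_fst_of_compactSpace _ ?_
  exact h2.preimage (f := fun q : EuclideanSpace ℝ (Fin k) ×
      Metric.sphere (0 : EuclideanSpace ℝ (Fin k)) 1 => (q.1, q.2.1)) (by fun_prop)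

theorem l2 : S_L2 := by
  intro k hk K hK hp
  have hFne := frontier_ne hk K hK
  have : Nonempty (frontier K) := hFne.to_subtype
  have hcomp : IsCompact (frontier K) := hK.compact.of_isClosed_subset isClosed_frontier
    (hK.compact.isClosed.frontier_subset)
  have : CompactSpace (frontier K) := isCompact_iff_compactSpace.mp hcomp
  have hcl : ∀ N : ℕ, IsClosed ((fun p : frontier K => p.1) ⁻¹' (AN K (N : ℝ))) := fun N =>
    (isClosed_AN K N).preimage continuous_subtype_val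
  have hU : (⋃ N : ℕ, (fun p : frontier K => p.1) ⁻¹' (AN K (N : ℝ))) = univ := by
    rw [eq_univ_iff_forall]
    rintro ⟨p, hpF⟩
    obtain ⟨ν, R, hν, hR, h⟩ := hp p hpF
    obtain ⟨N, hN⟩ := exists_nat_ge R
    refine mem_iUnion.mpr ⟨N, ν, hν, fun y hy => ?_⟩
    have h1 := h y hy
    have h0 : 0 ≤ inner ℝ (p - y) ν := by
      by_contra hlt
      push Not at hlt
      have h2 : (2 : ℝ) * R * inner ℝ (p - y) ν < 0 := by
        apply mul_neg_of_pos_of_neg <;> linarith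
      have h3 : 0 ≤ ‖y - p‖ ^ 2 := sq_nonneg _
      linarith
    refine h1.trans ?_
    have : R * inner ℝ (p - y) ν ≤ N * inner ℝ (p - y) ν := mul_le_mul_of_nonneg_right hN h0
    change 2 * R * inner ℝ (p - y) ν ≤ 2 * (N : ℝ) * inner ℝ (p - y) ν
    nlinarith
  obtain ⟨N, hN⟩ := nonempty_interior_of_iUnion_of_closed hcl hU
  obtain ⟨⟨p₀, hp₀⟩, hint⟩ := hN
  rw [mem_interior_iff_mem_nhds, Metric.mem_nhds_iff] at hint
  obtain ⟨r, hr, hball⟩ := hint
  refine ⟨p₀, hp₀, r, (N : ℝ) + 1, hr, by positivity, fun p hpF hd => ?_⟩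
  have hmem : (⟨p, hpF⟩ : frontier K) ∈ Metric.ball (⟨p₀, hp₀⟩ : frontier K) r := by
    simpa [Metric.mem_ball, Subtype.dist_eq] using hd
  obtain ⟨ν, hν, h⟩ := hball hmem
  refine ⟨ν, hν, fun y hy => ?_⟩
  have h1 := h y hy
  change ‖y - p‖ ^ 2 ≤ 2 * (N : ℝ) * inner ℝ (p - y) ν at h1
  have h0 : 0 ≤ inner ℝ (p - y) ν ∨ N = 0 := by
    rcases Nat.eq_zero_or_pos N with h | h
    · exact Or.inr h
    · left
      by_contra hlt
      push Not at hlt
      have hN' : (0 : ℝ) < N := by exact_mod_cast h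
      have h2 : (2 : ℝ) * N * inner ℝ (p - y) ν < 0 := by
        apply mul_neg_of_pos_of_neg <;> linarith
      have h3 : 0 ≤ ‖y - p‖ ^ 2 := sq_nonneg _
      linarith
  rcases h0 with h0 | h0
  · linarith
  · subst h0
    have h2 : ‖y - p‖ ^ 2 ≤ 0 := by simpa using h1
    have h3 : ‖y - p‖ = 0 := by
      have := sq_nonneg ‖y - p‖
      exact pow_eq_zero_iff (two_ne_zero) |>.mp (le_antisymm h2 this)
    have h4 : y = p := by
      rw [norm_sub_eq_zero_iff] at h3
      exact h3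
    subst h4
    simp

end Pool.Agent.W743.RP
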