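import Pool.Agent.W712.RP.Stm

/-!
RP-L: the lower bound for one smooth body.
-/

set_option autoImplicit false

open MeasureTheory Set Filter Topology

namespace Pool.Agent.W743.RP

open Pool.Agent.W712.RP

theorem low_body : S_L1 → S_L2 → S_L3 → S_L4 → S_L := by
  intro h1 h2 h3 h4 k hk K hK
  have hB : Body K := hK.toBody
  obtain ⟨x₀, hx₀⟩ := hB.interior_nonempty
  obtain ⟨p₀, hp₀, r, R, hr, hR, hpatch⟩ := h2 k hk K hB (h1 k hk K hK)
  obtain ⟨C, hC, hcap⟩ := h3 k hk R hR
  obtain ⟨T, c, hT, hc, hTpos, hTc, hTp⟩ := h4 k hk K hB x₀ p₀ hx₀ hp₀ r hr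
  obtain ⟨D₀, hD₀⟩ := hB.compact.isBounded.exists_norm_le
  set D : ℝ := D₀ + ‖x₀‖ + 1 with hDdef
  have hx₀K : x₀ ∈ K := interior_subset hx₀
  have hD₀0 : 0 ≤ D₀ := (norm_nonneg _).trans (hD₀ x₀ hx₀K)
  have hD1 : 1 ≤ D := by
    have := norm_nonneg x₀
    rw [hDdef]; linarith
  have hD : ∀ y ∈ K, ‖y - x₀‖ ≤ D := fun y hy => by
    have := norm_sub_le y x₀
    have := hD₀ y hy
    rw [hDdef]; linarith
  have hVpos : 0 < (volume K).toReal := by
    refine ENNReal.toReal_pos ?_ hB.compact.measure_lt_top.ne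
    exact (lt_of_lt_of_le (isOpen_interior.measure_pos volume hB.interior_nonempty)
      (measure_mono interior_subset)).ne'
  set V : ℝ := (volume K).toReal with hV
  have hVK : volume K = ENNReal.ofReal V := by
    rw [hV, ENNReal.ofReal_toReal hB.compact.measure_lt_top.ne]
  set e : ℝ := ((k : ℝ) + 1) / 2 with he
  have hDe : 0 < D ^ e := Real.rpow_pos_of_pos (by linarith) _
  refine ⟨T, c, D, C * D ^ e / V, hT, hc, by linarith, by positivity, hTpos, hTc, ?_⟩
  intro z hz hTz
  obtain ⟨p, hpF, hpd, hzp⟩ := hTp z hz hTz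
  obtain ⟨ν, hν, hball⟩ := hpatch p hpF hpd
  have hpK : p ∈ K := hB.compact.isClosed.frontier_subset hpF
  have hT0 := hTpos z
  have hpz : p - z = T z • (p - x₀) := by
    calc p - z = p - (x₀ + (1 - T z) • (p - x₀)) := by rw [← hzp]
      _ = T z • (p - x₀) := by module
  have hin : ∀ y, inner ℝ ν (y - z) = T z * inner ℝ (p - x₀) ν - inner ℝ (p - y) ν := by
    intro y
    have : y - z = (p - z) - (p - y) := by abel
    rw [this, hpz, inner_sub_right, inner_smul_right, real_inner_comm ν (p - x₀),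
      real_inner_comm ν (p - y)]
  have hpx : inner ℝ (p - x₀) ν ≤ D := by
    refine (real_inner_le_norm _ _).trans ?_
    rw [hν, mul_one]
    exact hD p hpK
  have hpy : ∀ y ∈ K, 0 ≤ inner ℝ (p - y) ν := by
    intro y hy
    have h5 := hball y hy
    by_contra hlt
    push Not at hlt
    have h6 : (2 : ℝ) * R * inner ℝ (p - y) ν < 0 := by
      apply mul_neg_of_pos_of_neg <;> linarith
    have h7 : 0 ≤ ‖y - p‖ ^ 2 := sq_nonneg _
    linarith
  refine ⟨innerSL ℝ ν, fun y hy => ?_, fun h hh => ?_⟩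
  · rw [innerSL_apply_apply, hin]
    have := hpy y hy
    have := mul_le_mul_of_nonneg_left hpx hT0.le
    nlinarith
  · have hX : 0 < (1 + h) * T z := by positivity
    have hsub : {y | -(h * T z) ≤ innerSL ℝ ν (y - z)} ∩ K ⊆
        {y : EuclideanSpace ℝ (Fin k) | ‖y - p‖ ^ 2 ≤ 2 * R * inner ℝ (p - y) ν ∧
          inner ℝ (p - y) ν ≤ D * ((1 + h) * T z)} := by
      rintro y ⟨hy1, hy2⟩
      refine ⟨hball y hy2, ?_⟩
      change -(h * T z) ≤ innerSL ℝ ν (y - z) at hy1
      rw [innerSL_apply_apply, hin] at hy1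
      have := mul_le_mul_of_nonneg_left hpx hT0.le
      have h8 : h * T z ≤ D * (h * T z) := by
        have : 0 ≤ h * T z := by positivity
        nlinarith
      nlinarith
    have hm : unif volume K {y | -(h * T z) ≤ innerSL ℝ ν (y - z)} =
        (volume K)⁻¹ * volume ({y | -(h * T z) ≤ innerSL ℝ ν (y - z)} ∩ K) := by
      rw [unif, Measure.smul_apply, smul_eq_mul,
        Measure.restrict_apply' hB.compact.isClosed.measurableSet]
    rw [hm]
    have h9 := (measure_mono hsub).trans (hcap p ν (D * ((1 + h) * T z)) hν (by positivity))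
    calc (volume K)⁻¹ * volume ({y | -(h * T z) ≤ innerSL ℝ ν (y - z)} ∩ K)
        ≤ (volume K)⁻¹ * ENNReal.ofReal (C * (D * ((1 + h) * T z)) ^ e) := by gcongr
      _ = ENNReal.ofReal (C * D ^ e / V * ((1 + h) * T z) ^ e) := by
          rw [hVK, ← ENNReal.ofReal_inv_of_pos hVpos, ← ENNReal.ofReal_mul (by positivity)]
          congr 1
          rw [Real.mul_rpow (by linarith) hX.le]
          field_simp

end Pool.Agent.W743.RP
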